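import Pool.Agent.TH325.AG.Cnt

set_option autoImplicit false

open Finset Pool.Agent.TH325.AG
open scoped Matrix.Norms.L2Operator ComplexOrder

namespace Pool.Agent.Results.MP_6169a9_an.NormAMGMFails

/-- The with-replacement average `W_m` of the spectral norms of the products
`A_{j_1} A_{j_2} ⋯ A_{j_m}` over all `n ^ m` index tuples. -/
noncomputable def W {𝕜 : Type} [RCLike 𝕜] {n d : ℕ} (m : ℕ)
    (A : Fin n → Matrix (Fin d) (Fin d) 𝕜) : ℝ :=
  (1 / (n : ℝ) ^ m) * ∑ j : Fin m → Fin n, ‖(List.ofFn fun k => A (j k)).prod‖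

open Classical in
/-- The without-replacement average `D_m` of the spectral norms of the products
`A_{j_1} A_{j_2} ⋯ A_{j_m}` over all tuples of pairwise distinct indices. -/
noncomputable def D {𝕜 : Type} [RCLike 𝕜] {n d : ℕ} (m : ℕ)
    (A : Fin n → Matrix (Fin d) (Fin d) 𝕜) : ℝ :=
  (((n - m).factorial : ℝ) / (n.factorial : ℝ)) *
    ∑ j ∈ univ.filter (fun j : Fin m → Fin n => Function.Injective j),
      ‖(List.ofFn fun k => A (j k)).prod‖

theorem prod_submatrix {𝕜 : Type} [RCLike 𝕜] {ι κ : Type} [Fintype ι] [DecidableEq ι]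
    [Fintype κ] [DecidableEq κ] (e : κ ≃ ι) (m : ℕ) (B : Fin m → Matrix ι ι 𝕜) :
    (List.ofFn fun k => (B k).submatrix e e).prod = (List.ofFn B).prod.submatrix e e := by
  induction m with
  | zero => simp
  | succ m ih =>
    rw [List.ofFn_succ, List.prod_cons, ih (fun k => B k.succ), List.ofFn_succ, List.prod_cons,
      Matrix.submatrix_mul_equiv]

/-- the quantitative statement -/
theorem quant (𝕜 : Type) [RCLike 𝕜] (N : ℕ) : ∃ d : ℕ, 1 ≤ d ∧
    ∃ A : Fin (N + 1) → Matrix (Fin d) (Fin d) 𝕜,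
      (∀ i, (A i).PosSemidef) ∧ (∀ i, A i * A i = A i) ∧ 0 < D (N + 1) A ∧
      W (N + 1) A ≤ (648 / 5) * (3 / 4 : ℝ) ^ N * D (N + 1) A := by
  classical
  let ι := Equiv.Perm (Fin (N + 1)) × Fin (N + 1 + 1)
  let e : Fin (Fintype.card ι) ≃ ι := (Fintype.equivFin ι).symm
  let A : Fin (N + 1) → Matrix (Fin (Fintype.card ι)) (Fin (Fintype.card ι)) 𝕜 :=
    fun i => (Let 𝕜 i).submatrix e e
  have hn : ∀ w : Fin (N + 1) → Fin (N + 1), ‖(List.ofFn fun k => A (w k)).prod‖ =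
      ‖(List.ofFn fun k => Let 𝕜 (w k)).prod‖ := by
    intro w
    have h1 : (List.ofFn fun k => A (w k)).prod =
        ((List.ofFn fun k => Let 𝕜 (w k)).prod).submatrix e e :=
      prod_submatrix e (N + 1) (fun k => Let 𝕜 (w k))
    rw [h1, norm_submatrix]
  have hfac : (0 : ℝ) < ((N + 1).factorial : ℝ) := by exact_mod_cast Nat.factorial_pos _
  have hD : (1 / 2 : ℝ) ^ N ≤ D (N + 1) A := by
    unfold D
    have hcard : (univ.filter (fun j : Fin (N + 1) → Fin (N + 1) => Function.Injective j)).card =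
        (N + 1).factorial := by
      rw [← Fintype.card_subtype, Fintype.card_congr (Equiv.subtypeInjectiveEquivEmbedding
        (Fin (N + 1)) (Fin (N + 1))), Fintype.card_embedding_eq, Fintype.card_fin,
        Nat.descFactorial_self]
    have h1 : ((N + 1).factorial : ℝ) * (1 / 2 : ℝ) ^ N ≤
        ∑ j ∈ univ.filter (fun j : Fin (N + 1) → Fin (N + 1) => Function.Injective j),
          ‖(List.ofFn fun k => A (j k)).prod‖ := by
      rw [← hcard, ← nsmul_eq_mul]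
      refine Finset.card_nsmul_le_sum _ _ _ fun w hw => ?_
      rw [hn]
      exact le_norm_word w (Finset.mem_filter.1 hw).2
    rw [Nat.sub_self, Nat.factorial_zero, Nat.cast_one]
    calc (1 / 2 : ℝ) ^ N = 1 / ((N + 1).factorial : ℝ) *
          (((N + 1).factorial : ℝ) * (1 / 2 : ℝ) ^ N) := by field_simp
      _ ≤ _ := mul_le_mul_of_nonneg_left h1 (by positivity)
  have hW : W (N + 1) A ≤ (648 / 5) * (3 / 4 : ℝ) ^ N * (1 / 2 : ℝ) ^ N := by
    unfold W
    have h1 : ∑ j : Fin (N + 1) → Fin (N + 1), ‖(List.ofFn fun k => A (j k)).prod‖ ≤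
        (648 / 5) * ((N + 1).factorial : ℝ) * (3 / 4 : ℝ) ^ N := by
      refine le_trans (Finset.sum_le_sum fun w _ => ?_) (sum_gw_le N)
      rw [hn]
      exact norm_word_le w
    have h2 := fact_le_pow N
    have h3 : (0 : ℝ) < ((N + 1 : ℕ) : ℝ) ^ (N + 1) := by positivity
    have h4 : ((N + 1).factorial : ℝ) ≤ ((N + 1 : ℕ) : ℝ) ^ (N + 1) * (1 / 2 : ℝ) ^ N := by
      have h5 : ((N + 1).factorial : ℝ) = ((N + 1).factorial : ℝ) * 2 ^ N * (1 / 2 : ℝ) ^ N := by
        rw [mul_assoc, ← mul_pow]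
        norm_num
      rw [h5]
      exact mul_le_mul_of_nonneg_right h2 (by positivity)
    rw [one_div, inv_mul_le_iff₀ h3]
    calc _ ≤ (648 / 5) * ((N + 1).factorial : ℝ) * (3 / 4 : ℝ) ^ N := h1
      _ ≤ (648 / 5) * (((N + 1 : ℕ) : ℝ) ^ (N + 1) * (1 / 2 : ℝ) ^ N) * (3 / 4 : ℝ) ^ N := by
          gcongr
      _ = _ := by ring
  refine ⟨Fintype.card ι, Fintype.card_pos, A, fun i => ?_, fun i => ?_, ?_, ?_⟩
  · exact (let_posSemidef i).submatrix e
  · show (Let 𝕜 i).submatrix e e * (Let 𝕜 i).submatrix e e = (Let 𝕜 i).submatrix e e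
    rw [Matrix.submatrix_mul_equiv, let_sq]
  · exact lt_of_lt_of_le (by positivity) hD
  · exact hW.trans (mul_le_mul_of_nonneg_left hD (by positivity))

/-- **Negative answer to the question of Recht and Re (the version with the norm inside the
averages).**  The inequality `D_m ≤ W_m` fails for suitable positive semidefinite matrices; in
fact, over `ℝ` and over `ℂ`, already with `m = n` and orthogonal projections the quotient
`W_n / D_n` can be exponentially small: it can be at most `(648/5) (3/4)^(n-1)`. -/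
theorem result :
    (¬ ∀ d m n : ℕ, 1 ≤ d → 1 ≤ m → m ≤ n → ∀ A : Fin n → Matrix (Fin d) (Fin d) ℂ,
      (∀ i, (A i).PosSemidef) → D m A ≤ W m A) ∧
    (¬ ∀ d m n : ℕ, 1 ≤ d → 1 ≤ m → m ≤ n → ∀ A : Fin n → Matrix (Fin d) (Fin d) ℝ,
      (∀ i, (A i).PosSemidef) → D m A ≤ W m A) ∧
    (∀ (𝕜 : Type) [RCLike 𝕜] (n : ℕ), 1 ≤ n → ∃ d : ℕ, 1 ≤ d ∧
      ∃ A : Fin n → Matrix (Fin d) (Fin d) 𝕜,
        (∀ i, (A i).PosSemidef) ∧ (∀ i, A i * A i = A i) ∧ 0 < D n A ∧
        W n A ≤ (648 / 5) * (3 / 4 : ℝ) ^ (n - 1) * D n A) := by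
  have key : ∀ (𝕜 : Type) [RCLike 𝕜], ¬ ∀ d m n : ℕ, 1 ≤ d → 1 ≤ m → m ≤ n →
      ∀ A : Fin n → Matrix (Fin d) (Fin d) 𝕜, (∀ i, (A i).PosSemidef) → D m A ≤ W m A := by
    intro 𝕜 _ h
    obtain ⟨d, hd, A, hA, -, hD, hW⟩ := quant 𝕜 20
    have h1 := h d 21 21 hd (by norm_num) le_rfl A hA
    have h2 : (648 / 5) * (3 / 4 : ℝ) ^ 20 * D 21 A < D 21 A := by
      have h3 : (648 / 5) * (3 / 4 : ℝ) ^ 20 < 1 := by norm_num
      calc _ < 1 * D 21 A := mul_lt_mul_of_pos_right h3 hD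
        _ = _ := one_mul _
    exact absurd (h1.trans hW) (not_le.2 h2)
  refine ⟨key ℂ, key ℝ, ?_⟩
  intro 𝕜 _ n hn
  obtain ⟨N, rfl⟩ : ∃ N, n = N + 1 := ⟨n - 1, by omega⟩
  exact quant 𝕜 N

end Pool.Agent.Results.MP_6169a9_an.NormAMGMFails
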